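import Pool.Agent.helper76.UFG.Spec

/-! Row ufg:DVN (helper92). -/

set_option autoImplicit false

namespace Pool.Agent.UFG

open Finset NumberField nonZeroDivisors Pool.Agent.UF

theorem DVN : DVN_stmt := by
  intro m n K L _ _ _ _ _ _ _ hm hn
  have : NeZero n := ⟨hn⟩
  have : NeZero (2 ^ (m + 1)) := ⟨pow_ne_zero _ (by norm_num)⟩
  have h1 : IsPrimitiveRoot (IsCyclotomicExtension.zeta (2 ^ (m + 1)) ℚ K) (2 ^ (m + 1)) :=
    IsCyclotomicExtension.zeta_spec (2 ^ (m + 1)) ℚ K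
  have h2 : IsPrimitiveRoot (algebraMap K L (IsCyclotomicExtension.zeta (2 ^ (m + 1)) ℚ K)) (2 ^ (m + 1)) :=
    h1.map_of_injective (algebraMap K L).injective
  have h3 : 2 ^ (m + 1) ∣ Units.torsionOrder L := NumberField.Units.dvd_torsionOrder_of_isPrimitiveRoot h2
  have h4 : Units.torsionOrder L = if Even n then n else 2 * n := IsCyclotomicExtension.Rat.torsionOrder_eq
  rw [h4] at h3
  by_cases he : Even n
  · rwa [if_pos he] at h3
  · rw [if_neg he] at h3
    exfalso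
    obtain ⟨k, rfl⟩ := Nat.exists_eq_add_of_le hm
    have h5 : 2 ^ (1 + k + 1) = 2 * (2 * 2 ^ k) := by ring
    rw [h5] at h3
    have h6 : 2 * 2 ^ k ∣ n := Nat.dvd_of_mul_dvd_mul_left (by norm_num) h3
    exact he (even_iff_two_dvd.2 (dvd_of_mul_right_dvd h6))

end Pool.Agent.UFG
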